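import Mathlib
import Pool.Agent.Helper96.AW.GoalsA
import Pool.Agent.Helper86.AF.ROT

/-!
Project AW (MP_af6c86_pr), packet GA: two faces in every complex component.
-/

namespace Pool.Agent.Helper44.AW.GA

open Finset Pool.Agent.Helper26.AF Pool.Agent.Helper26.AL Pool.Agent.Helper96.AW

section

variable {V : Type}

theorem eIn_le_card_induce (G : SimpleGraph V) (Q : Finset V) (S : Set V)
    (hc : S = (Q : Set V)) : eIn G Q ≤ Nat.card (G.induce S).edgeSet := by
  classical
  subst hc
  unfold eIn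
  refine Nat.card_le_card_of_surjective (fun e : (G.induce (Q : Set V)).edgeSet =>
    (⟨Sym2.map Subtype.val e.1, ?_, ?_⟩ :
      {e : Sym2 V // e ∈ G.edgeSet ∧ ∀ v ∈ e, v ∈ Q})) ?_
  · obtain ⟨e, he⟩ := e
    induction e using Sym2.ind with
    | _ x y => simpa using he
  · intro v hv
    obtain ⟨w, -, rfl⟩ := Sym2.mem_map.1 hv
    exact w.2
  · rintro ⟨e, he, hQ⟩
    induction e using Sym2.ind with
    | _ x y =>
      have hx : x ∈ Q := hQ x (by simp)
      have hy : y ∈ Q := hQ y (by simp)
      refine ⟨⟨s(⟨x, hx⟩, ⟨y, hy⟩), ?_⟩, ?_⟩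
      · simpa using he
      · simp

/-- A complex component contains a cycle. -/
theorem exists_cycle (G : SimpleGraph V) (Q : Finset V) (c : G.ConnectedComponent)
    (hc : c.supp = (Q : Set V)) (h : #Q + 1 ≤ eIn G Q) :
    ∃ (v : V) (p : G.Walk v v), p.IsCycle ∧ v ∈ c.supp := by
  classical
  have h1 : (G.induce c.supp).Connected := c.connected_toSimpleGraph
  have hf : Finite c.supp := by
    rw [hc]
    infer_instance
  have : Fintype c.supp := Fintype.ofFinite _
  have h2 := eIn_le_card_induce G Q c.supp hc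
  have h3 : Nat.card c.supp = #Q := by
    rw [hc]
    simp
  by_contra hno
  have hac : (G.induce c.supp).IsAcyclic := by
    intro v p hp
    refine hno ⟨v.1, p.map (SimpleGraph.Embedding.induce (G := G) c.supp).toHom, ?_, v.2⟩
    exact hp.map (SimpleGraph.Embedding.induce (G := G) c.supp).injective
  have h4 : (G.induce c.supp).IsTree := ⟨h1, hac⟩
  have h5 := h4.card_edgeFinset
  rw [← Nat.card_eq_fintype_card, h3] at h5
  rw [Nat.card_eq_fintype_card, SimpleGraph.card_edgeSet] at h2
  omega

theorem mod_ne {n i : ℕ} (hn : 3 ≤ n) (hi : i < n) : (i + 2) % n ≠ i := by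
  by_cases h : i + 2 < n
  · rw [Nat.mod_eq_of_lt h]
    omega
  · rw [Nat.mod_eq_sub_mod (by omega), Nat.mod_eq_of_lt (by omega)]
    omega

/-- The cyclic shift of a cycle. -/
theorem cyc_perm [DecidableEq V] (G : SimpleGraph V) {v : V} (p : G.Walk v v) (hp : p.IsCycle) :
    ∃ s : Equiv.Perm V, s v ≠ v ∧ ∀ x, s x ≠ x → x ∈ p.support ∧ G.Adj x (s x) ∧ s (s x) ≠ x := by
  classical
  have hnd := hp.support_nodup
  have h3 := hp.three_le_length
  have hlen : p.support.tail.length = p.length := by
    rw [List.length_tail, SimpleGraph.Walk.length_support]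
    rfl
  have hget : ∀ i (hi : i < p.support.tail.length), p.support.tail[i] = p.getVert (i + 1) := by
    intro i hi
    rw [SimpleGraph.Walk.getVert_eq_support_getElem _ (by omega), List.getElem_tail]
  have hmain : ∀ x ∈ p.support.tail, G.Adj x (p.support.tail.formPerm x) ∧
      p.support.tail.formPerm (p.support.tail.formPerm x) ≠ x := by
    intro x hx
    obtain ⟨i, hi, rfl⟩ := List.getElem_of_mem hx
    constructor
    · rw [List.formPerm_apply_getElem _ hnd i hi, hget, hget]
      by_cases h : i + 1 < p.support.tail.length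
      · have h6 : (i + 1) % p.support.tail.length = i + 1 := Nat.mod_eq_of_lt h
        rw [h6]
        exact p.adj_getVert_succ (by omega)
      · have h5 : i + 1 = p.support.tail.length := by omega
        have h6 : (i + 1) % p.support.tail.length = 0 := by
          rw [h5]
          exact Nat.mod_self _
        rw [h6, h5, hlen, SimpleGraph.Walk.getVert_length]
        have h7 := p.adj_getVert_succ (i := 0) (by omega)
        rwa [SimpleGraph.Walk.getVert_zero] at h7
    · have h5 := List.formPerm_pow_apply_getElem _ hnd 2 i hi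
      rw [pow_two, Equiv.Perm.mul_apply] at h5
      rw [h5]
      intro h6
      have h7 := (List.Nodup.getElem_inj_iff hnd).1 h6
      exact mod_ne (by omega) hi h7
  have hv : v ∈ p.support.tail := by
    have h5 : p.support.tail[p.length - 1]'(by omega) = v := by
      rw [hget, Nat.sub_add_cancel (by omega), SimpleGraph.Walk.getVert_length]
    have h6 := List.getElem_mem (l := p.support.tail) (n := p.length - 1) (by omega)
    rw [h5] at h6
    exact h6
  refine ⟨p.support.tail.formPerm, ?_, ?_⟩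
  · exact (hmain v hv).1.ne'
  · intro x hx
    have hx' : x ∈ p.support.tail := by
      by_contra h
      exact hx (List.formPerm_apply_of_notMem h)
    exact ⟨List.mem_of_mem_tail hx', hmain x hx'⟩

/-- One permutation for all components. -/
theorem exists_shift [DecidableEq V] (G : SimpleGraph V) :
    ∃ s : Equiv.Perm V, (∀ x, s x ≠ x → G.Adj x (s x) ∧ s (s x) ≠ x) ∧
      ∀ Q : Finset V, IsComp G Q → #Q + 1 ≤ eIn G Q → ∃ x ∈ Q, s x ≠ x := by
  classical
  have H : ∀ c : G.ConnectedComponent, ∃ s : Equiv.Perm V,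
      (∀ x, s x ≠ x → x ∈ c.supp ∧ G.Adj x (s x) ∧ s (s x) ≠ x) ∧
      ∀ Q : Finset V, c.supp = (Q : Set V) → #Q + 1 ≤ eIn G Q → ∃ x ∈ c.supp, s x ≠ x := by
    intro c
    by_cases h : ∃ Q : Finset V, c.supp = (Q : Set V) ∧ #Q + 1 ≤ eIn G Q
    · obtain ⟨Q, hQ, h1⟩ := h
      obtain ⟨v, p, hp, hv⟩ := exists_cycle G Q c hQ h1
      obtain ⟨s, hs1, hs2⟩ := cyc_perm G p hp
      refine ⟨s, fun x hx => ⟨?_, (hs2 x hx).2⟩, fun _ _ _ => ⟨v, hv, hs1⟩⟩
      have h3 : G.Reachable v x := (p.takeUntil x (hs2 x hx).1).reachable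
      rw [SimpleGraph.ConnectedComponent.mem_supp_iff] at hv ⊢
      rw [← hv]
      exact (SimpleGraph.ConnectedComponent.sound h3).symm
    · refine ⟨1, fun x hx => absurd rfl hx, fun Q h1 h2 => absurd ⟨Q, h1, h2⟩ h⟩
  choose f hf1 hf2 using H
  have hm : ∀ c v, G.connectedComponentMk v = c → G.connectedComponentMk (f c v) = c := by
    intro c v hv
    by_cases h : f c v = v
    · rw [h, hv]
    · have h1 : G.Reachable v (f c v) := (hf1 c v h).2.1.reachable
      exact (SimpleGraph.ConnectedComponent.sound h1).symm.trans hv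
  have hm' : ∀ c v, G.connectedComponentMk v = c → G.connectedComponentMk ((f c).symm v) = c := by
    intro c v hv
    by_cases h : f c ((f c).symm v) = (f c).symm v
    · rw [Equiv.apply_symm_apply] at h
      rw [← h, hv]
    · exact (hf1 c _ h).1
  let s : Equiv.Perm V :=
    { toFun := fun v => f (G.connectedComponentMk v) v
      invFun := fun v => (f (G.connectedComponentMk v)).symm v
      left_inv := by
        intro v
        change (f (G.connectedComponentMk (f (G.connectedComponentMk v) v))).symm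
          (f (G.connectedComponentMk v) v) = v
        rw [hm _ v rfl, Equiv.symm_apply_apply]
      right_inv := by
        intro v
        change f (G.connectedComponentMk ((f (G.connectedComponentMk v)).symm v))
          ((f (G.connectedComponentMk v)).symm v) = v
        rw [hm' _ v rfl, Equiv.apply_symm_apply] }
  have hs : ∀ x, s x = f (G.connectedComponentMk x) x := fun x => rfl
  refine ⟨s, ?_, ?_⟩
  · intro x hx
    rw [hs] at hx
    have h1 := hf1 _ x hx
    rw [hs x, hs, hm _ x rfl]
    exact h1.2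
  · rintro Q ⟨c, hc⟩ hQ
    obtain ⟨x, hx, h1⟩ := hf2 c Q hc hQ
    refine ⟨x, ?_, ?_⟩
    · have : x ∈ (Q : Set V) := hc ▸ hx
      exact this
    · rw [hs, show G.connectedComponentMk x = c from hx]
      exact h1

/-- The rotation system. -/
theorem exists_rot [DecidableEq V] (G : SimpleGraph V) (σ₀ : Equiv.Perm G.Dart) (h0 : IsRot G σ₀)
    (hfin : Finite G.Dart) (s : Equiv.Perm V) (hs : ∀ x, s x ≠ x → G.Adj x (s x) ∧ s (s x) ≠ x) :
    ∃ σ : Equiv.Perm G.Dart, IsRot G σ ∧ ∀ x, s x ≠ x →
      ∃ d d' : G.Dart, d.fst = x ∧ d'.fst = x ∧ ¬ (σ * rev G).SameCycle d d' := by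
  classical
  have hadj : ∀ x, s x ≠ x → G.Adj x (s.symm x) := by
    intro x hx
    have h1 : s (s.symm x) ≠ s.symm x := by
      intro h
      rw [Equiv.apply_symm_apply] at h
      apply hx
      have h2 := Equiv.apply_symm_apply s x
      rw [← h] at h2
      exact h2
    have h2 := (hs _ h1).1
    rw [Equiv.apply_symm_apply] at h2
    exact h2.symm
  let b : ∀ x, s x ≠ x → G.Dart := fun x h => ⟨(x, s x), (hs x h).1⟩
  let a : ∀ x, s x ≠ x → G.Dart := fun x h => ⟨(x, s.symm x), hadj x h⟩
  have hb1 : ∀ x h, (b x h).fst = x := fun x h => rfl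
  have ha1 : ∀ x h, (a x h).fst = x := fun x h => rfl
  have hab : ∀ x h, a x h ≠ b x h := by
    intro x h he
    have h1 : s.symm x = s x := congrArg (fun d : G.Dart => d.snd) he
    have h2 : s (s x) = x := by rw [← h1, Equiv.apply_symm_apply]
    exact (hs x h).2 h2
  have ha2 : ∀ x h, σ₀ (a x h) ≠ a x h := by
    intro x h he
    have h1 := h0.cyc (a x h) (b x h) rfl
    exact hab x h ((Equiv.Perm.SameCycle.eq_of_left h1 he))
  let t : V → Equiv.Perm G.Dart := fun x =>
    if h : s x ≠ x then Equiv.swap (σ₀ (a x h)) (b x h) else 1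
  have ht1 : ∀ x d, d.fst = x → (t x d).fst = x := by
    intro x d hd
    by_cases h : s x ≠ x
    · simp only [t, dif_pos h]
      rw [Equiv.swap_apply_def]
      split_ifs
      · rfl
      · rw [h0.src]
      · exact hd
    · simp only [t, dif_neg h]
      exact hd
  have ht2 : ∀ x d, t x (t x d) = d := by
    intro x d
    by_cases h : s x ≠ x
    · simp only [t, dif_pos h]
      rw [Equiv.swap_apply_self]
    · simp only [t, dif_neg h]
      rfl
  have hinv : Function.Involutive (fun d : G.Dart => t d.fst d) := by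
    intro d
    change t (t d.fst d).fst (t d.fst d) = d
    rw [ht1 d.fst d rfl, ht2]
  let τ : Equiv.Perm G.Dart := hinv.toPerm
  have hτ : ∀ d, τ d = t d.fst d := fun d => rfl
  have hτ' : ∀ d, τ⁻¹ d = t d.fst d := fun d => rfl
  have hτ1 : ∀ d, (τ d).fst = d.fst := fun d => ht1 _ d rfl
  have hτ2 : ∀ d, (τ⁻¹ d).fst = d.fst := fun d => ht1 _ d rfl
  have hσ : ∀ x h, (τ * σ₀ * τ⁻¹) (a x h) = b x h := by
    intro x h
    have h1 : τ⁻¹ (a x h) = a x h := by
      rw [hτ', ha1 x h]
      simp only [t, dif_pos h]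
      exact Equiv.swap_apply_of_ne_of_ne (ha2 x h).symm (hab x h)
    rw [Equiv.Perm.mul_apply, Equiv.Perm.mul_apply, h1, hτ, h0.src, ha1 x h]
    simp only [t, dif_pos h]
    exact Equiv.swap_apply_left _ _
  refine ⟨τ * σ₀ * τ⁻¹, ⟨?_, ?_⟩, ?_⟩
  · intro d
    rw [Equiv.Perm.mul_apply, Equiv.Perm.mul_apply, hτ1, h0.src, hτ2]
  · intro d e hde
    rw [Equiv.Perm.sameCycle_conj]
    apply h0.cyc
    rw [hτ2, hτ2, hde]
  · intro x hx
    refine ⟨b x hx, a x hx, rfl, rfl, ?_⟩
    intro hsc
    obtain ⟨n, hn⟩ := hsc.exists_nat_pow_eq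
    have hsx : ∀ y, s y ≠ y → s (s y) ≠ s y := by
      intro y hy he
      exact hy (s.injective he)
    have hstep : ∀ y (hy : s y ≠ y), (τ * σ₀ * τ⁻¹ * rev G) (b y hy) = b (s y) (hsx y hy) := by
      intro y hy
      rw [Equiv.Perm.mul_apply]
      have h1 : rev G (b y hy) = a (s y) (hsx y hy) := by
        apply SimpleGraph.Dart.ext
        change (s y, y) = (s y, s.symm (s y))
        rw [Equiv.symm_apply_apply]
      rw [h1, hσ (s y) (hsx y hy)]
    have hall : ∀ n : ℕ, ∃ y, ∃ hy : s y ≠ y, ((τ * σ₀ * τ⁻¹ * rev G) ^ n) (b x hx) = b y hy := by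
      intro n
      induction n with
      | zero => exact ⟨x, hx, rfl⟩
      | succ n ih =>
        obtain ⟨y, hy, h1⟩ := ih
        refine ⟨s y, hsx y hy, ?_⟩
        rw [pow_succ', Equiv.Perm.mul_apply, h1, hstep y hy]
    obtain ⟨y, hy, h1⟩ := hall n
    rw [hn] at h1
    have h2 : x = y := congrArg (fun d : G.Dart => d.fst) h1
    subst h2
    exact hab x hx h1

end

theorem t : S_GA := by
  intro V _ _ G
  classical
  obtain ⟨σ₀, h0⟩ := Pool.Agent.Helper86.AF.goalROT V G
  obtain ⟨s, hs1, hs2⟩ := exists_shift G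
  obtain ⟨σ, h1, h2⟩ := exists_rot G σ₀ h0 inferInstance s hs1
  refine ⟨σ, h1, fun Q hQ h3 => ?_⟩
  obtain ⟨x, hx, h4⟩ := hs2 Q hQ h3
  obtain ⟨d, d', h5, h6, h7⟩ := h2 x h4
  exact ⟨d, d', h5 ▸ hx, h6 ▸ hx, h7⟩

end Pool.Agent.Helper44.AW.GA
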